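import Pool.Agent.J6H14.DMu.Fin

/-!
# Iwasawa's conjecture `μ = 0`: reduction to decomposition fields, and a criterion at finite level

Let `k ≤ F ≤ K` and `k ≤ M ≤ K` be number fields (`k` is arbitrary), such that `K` and `M` are Galois
over `k` and the prime number `p` does not divide `[K : M]` and `[K : F]` (if `p` does not divide
`[K : k]`, take `M = k`). For a number field `L` let `d(L)` be the order of `Cl(L) / p` (`s = false`)
or of the quotient by the classes of the primes above `p` (`s = true`, the case of the problem): this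
is the largest degree of an elementary abelian `p`-extension of `L` which is unramified at all places
and, if `s = true`, in which the primes above `p` split completely. `RkLe p s L C` says `d(L) ≤ C`,
and `MuVanishes p s L` says that the numbers `d(L R)` are bounded, where `R` runs through the layers of
the cyclotomic `ℤ_p`-extension of `ℚ`, so that the `L R` are the layers of the one of `L`.

Let `𝓔` be a finite set of fields `E` with `k ≤ E ≤ K` and `p ∤ [K : E]`. Let `𝒮` be the set of the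
simple `𝔽_p[Gal(K/k)]`-modules `S` without nonzero vectors fixed by `Gal(K/E)` for some `E ∈ 𝓔`.
Assume that no `S ∈ 𝒮` has a nonzero vector which is fixed by the decomposition group in `Gal(K/M)` of a
prime above `p`. For example, this holds if each prime above `p` is conjugate over `k` to
one whose decomposition field in `K / M` is contained in a field of `𝓔`. Then the following holds.

* If `μ(E) = 0` for all `E ∈ 𝓔`, then `μ(F) = 0` if and only if for each `S ∈ 𝒮` with nonzero vectors
  fixed by `Gal(K/F)` there are a layer `R` and fields `P_i`, `N_j` such that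
  `∏ d(P_i R) / ∏ d(N_j R) < (∏ |S^{P_i}| / ∏ |S^{N_j}|) ^ [K R : K]`, and
  `∏ |T^{N_j}| ≤ ∏ |T^{P_i}|` for all simple modules `T`.
* If moreover `d(F) = 1`, for example if `p` does not divide the class number of `F`, then
  `μ(F) = 0`.
* If the layers `R` can be chosen in the layer `R₀`, then
  `d(F R') ≤ d(F R₀) ∏ d(E R') ^ [E : k]` for all layers `R'` which contain `R₀`.

Proof. Let `V` be the group of a maximal extension of `K R'` as above which is Galois over `k`, let `U` be
the submodule generated by the vectors fixed by the groups of the `E R'`, and `γ` a generator of the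
group of `K R' / K`. The homomorphism to `V / U (γ - 1) ^ q V`, `q = [K R : K]`, extends to
the group of `K R` (by averaging over `Gal(K/M)`), and the extension is trivial on the inertia or
decomposition groups, since these are mapped to vectors fixed by decomposition groups. If `S` occurs in
`U (γ - 1) ^ n V / U (γ - 1) ^ (n + 1) V` for some `n ≥ q - 1`, then it occurs in the first `q`
quotients, and the criterion fails. So for large `n` the vectors of `U (γ - 1) ^ n V` fixed by the group
of `F R'` are contained in `U`.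
-/

set_option autoImplicit false

namespace Pool.Agent.Results.MP_d0239a_nt.DecompositionFields

open Pool.Agent.Q60.MU Pool.Agent.J6H14.DMu

/-- `K` is a Galois extension of `k`. -/
def IsGaloisOver (k K : Fl) : Prop := k ≤ K ∧ ∀ σ ∈ gal k, ∀ x ∈ K, im σ x ∈ K

/-- The simple representations of `Gal(K/k)` over `𝔽_p` without nonzero vectors fixed by a field of
`𝓔`, but with nonzero vectors fixed by `F`. -/
def Relevant {p : ℕ} [Fact p.Prime] {k : Fl} (F K : Fl) (𝓔 : Finset Fl) {S : Type}
    [AddCommGroup S] [Module (ZMod p) S] (τ : Rp p k S) : Prop :=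
  SimpleMod K τ ∧ (∀ E ∈ 𝓔, nfix τ E = 1) ∧ nfix τ F ≠ 1

theorem result (p : ℕ) [Fact p.Prime] (s : Bool) (k M F K : Fl) (hfd : FiniteDimensional ℚ K)
    (hK : IsGaloisOver k K) (hM : IsGaloisOver k M) (hMK : M ≤ K) (hkF : k ≤ F) (hFK : F ≤ K)
    (hpM : ¬ p ∣ rdeg M K) (hpF : ¬ p ∣ rdeg F K)
    (𝓔 : Finset Fl) (h𝓔 : ∀ E ∈ 𝓔, k ≤ E ∧ E ≤ K ∧ ¬ p ∣ rdeg E K)
    (hloc : LocalCondition p k M K 𝓔 ∨ CoversDecompositionFields p k M K 𝓔) :
    ((∀ E ∈ 𝓔, MuVanishes p s E) →
      (MuVanishes p s F ↔ ∀ (S : Type) [AddCommGroup S] [Module (ZMod p) S]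
        [Module.Finite (ZMod p) S] (τ : Rp p k S), Relevant F K 𝓔 τ →
        ∃ m R, Layer p m R ∧ Criterion s K R τ) ∧
      (RkLe p s F 1 → MuVanishes p s F)) ∧
    ∀ (m₀ m' : ℕ) (R₀ R' : Fl), Layer p m₀ R₀ → Layer p m' R' → R₀ ≤ R' →
      (∀ (S : Type) [AddCommGroup S] [Module (ZMod p) S] [Module.Finite (ZMod p) S]
        (τ : Rp p k S), Relevant F K 𝓔 τ → ∃ m R, Layer p m R ∧ R ≤ R₀ ∧ Criterion s K R τ) →
      ∀ (C₀ : ℕ) (c : Fl → ℕ), RkLe p s (F ⊔ R₀) C₀ → (∀ E ∈ 𝓔, RkLe p s (E ⊔ R') (c E)) →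
        RkLe p s (F ⊔ R') (C₀ * ∏ E ∈ 𝓔, c E ^ rdeg k E) := by
  have hdec : LocalCondition p k M K 𝓔 := hloc.elim id fun h => local_of_dec hM.2 hM.1 hMK h
  have hfk : FiniteDimensional ℚ k := Pool.Agent.W5h33.DF.fd_of_le hK.1
  refine ⟨fun hE => ⟨⟨fun hF S _ _ _ τ hτ => necessity hkF hFK hpF hF τ hτ.2.2, fun hcr => ?_⟩,
    fun h1 => ?_⟩, ?_⟩
  · exact sufficiency hM.1 hMK hkF hFK hK.2 hM.2 hpM hpF 𝓔 h𝓔 hdec hE
      fun S _ _ _ τ h1 h2 h3 => hcr S τ ⟨h1, h2, h3⟩
  · exact sufficiency hM.1 hMK hkF hFK hK.2 hM.2 hpM hpF 𝓔 h𝓔 hdec hE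
      fun S _ _ _ τ _ _ h3 => ⟨0, ⊥, layer_zero, crit_zero hkF hFK hpF h1 τ h3⟩
  · intro m₀ m' R₀ R' hR₀ hR' hRR hcr C₀ c hC₀ hc
    refine bound_fields hM.1 hMK hkF hFK hK.2 hM.2 hpM hpF 𝓔 h𝓔 hdec hR₀ hR' hRR ?_ hC₀ c hc
    intro S _ _ b hb hE hF
    obtain ⟨i1, i2, τ, h1, h2, h3⟩ := exists_rep_add b hb
    obtain ⟨m, R, hR, hle, h4⟩ := hcr (Additive S) τ ⟨h1, fun E hE' => by
      rw [h3, ← fx_eq_bot]
      exact hE E hE', by
      rw [h3, Ne, ← fx_eq_bot]
      exact hF⟩
    have hfR := Pool.Agent.W5h77.MB.layer_fd Fact.out hR.1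
    exact ⟨m, R, hR, sb_mono hle, crit_of hK.1 b τ h3 h4⟩

end Pool.Agent.Results.MP_d0239a_nt.DecompositionFields
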