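import Pool.Agent.J6H14.DMu.Mod2

/-!
# `μ = 0` for arbitrary Galois extensions: one inequality at a finite level for each simple module

Let `K / k` be a Galois extension of number fields; `p` may divide `[K : k]` (for `p = 2` we assume
that `K / k` is unramified at the infinite places). Let `d(L)` be the order of `Cl(L) / p` (for
`s = true`: of the class group modulo the classes of the primes above `p`). For fields `E ≤ F` between
`k` and `K` with `p ∤ [F : E]` consider the inequality `Small`, at a finite layer `R` of the cyclotomic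
`ℤ_p`-extension of `ℚ`:

  `d(F R) < p ^ ([F R : F] - δ) d(E R)`.

Let `𝓔` be a nonempty set of fields between `k` and `K`. Then `μ(K) = 0` if and only if `μ(E) = 0` for
all `E ∈ 𝓔` and for each simple `𝔽_p[Gal(K/k)]`-module `S` with `S ^ Gal(K/E) = 0` for all `E ∈ 𝓔` this
inequality holds at some layer for some `E ∈ 𝓔` and some `F` with `S ^ Gal(K/F) ≠ 0`. Here
`δ = [F R₁ : F]` for a layer `R₁` of degree at least `[F : ℚ]` (or from which on the primes above `p`
are totally ramified), or `δ = 0` if no prime above `p` splits in `F / E`.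

For the base field `ℚ` (`ℚ(i)`, for `p = 2`) we have `μ = 0` and `d(ℚ R) = 1`, and each number field
is contained in a Galois extension. So Iwasawa's conjecture for the prime `p` and all number fields is
equivalent to the following: for each simple (finite, smooth) `𝔽_p`-representation `S` of the absolute
Galois group of the base field there are an extension `F` of the base field of degree prime to `p`
with `S ^ F ≠ 0` and a layer `R` with `d(F R) < p ^ ([F R : F] - δ)`.

Proof. The relative criterion (`MP_d0239a_nt/RelativeCriterion`, by transfer) gives `μ(F) = 0`. Then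
we use the reduction theorem of the start files (`Q60.MU.reduction`), whose hypotheses are verified for
the cyclotomic `ℤ_p`-extension: the primes above a prime number `ℓ` form at most `ℓ ^ (2 (p - 1))`
orbits over each layer, since a Frobenius element acts on the roots of unity of `p`-power order by
`ζ ↦ ζ ^ ℓ`. By Minkowski's theorem `ℚ` has no unramified extension, so `d(R) = 1` for all layers.
-/

set_option autoImplicit false

namespace Pool.Agent.Results.MP_d0239a_nt.ModularCriterion

open Pool.Agent.J6H14.DMu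

theorem result (p : ℕ) [Fact p.Prime] (s : Bool) :
    (∀ (k K : Fl) (𝓔 : Set Fl), FiniteDimensional ℚ K → GalInf p k K → 𝓔.Nonempty →
      (∀ E ∈ 𝓔, k ≤ E ∧ E ≤ K) →
      (MuVanishes p s K ↔ (∀ E ∈ 𝓔, MuVanishes p s E) ∧ ∀ (S : Type) [AddCommGroup S]
        [Module (ZMod p) S] [Module.Finite (ZMod p) S] (τ : Rp p k S), SimpleMod K τ →
        (∀ E ∈ 𝓔, nfix τ E = 1) →
        ∃ E ∈ 𝓔, ∃ (F R : Fl) (δ m : ℕ), E ≤ F ∧ F ≤ K ∧ ¬ p ∣ rdeg E F ∧ nfix τ F ≠ 1 ∧
          Adm p s E F δ ∧ Layer p m R ∧ Small p s E F δ R)) ∧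
    (∀ (E F R₁ : Fl) (m₁ : ℕ), FiniteDimensional ℚ F → Layer p m₁ R₁ → deg F ≤ deg R₁ →
      Adm p s E F (rdeg F (F ⊔ R₁))) ∧
    ((∀ K : Fl, FiniteDimensional ℚ K → MuVanishes p s K) ↔
      ∀ (S : Type) [AddCommGroup S] [Module (ZMod p) S] [Module.Finite (ZMod p) S]
        (τ : Rp p (Bs p) S), (∃ K : Fl, FiniteDimensional ℚ K ∧ SimpleMod K τ) →
        ∃ (F R : Fl) (δ m : ℕ), FiniteDimensional ℚ F ∧ Bs p ≤ F ∧ ¬ p ∣ rdeg (Bs p) F ∧
          nfix τ F ≠ 1 ∧ Adm p s (Bs p) F δ ∧ Layer p m R ∧
          dCl p s (F ⊔ R) < p ^ (rdeg F (F ⊔ R) - δ)) :=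
  ⟨fun _ _ 𝓔 _ hK hne h𝓔 => mod_crit hK 𝓔 hne h𝓔,
    fun _ _ R₁ m₁ _ hR₁ hdeg => Or.inr ⟨m₁, R₁, hR₁, totAbove_of_deg s hR₁ hdeg, rfl⟩,
    all_simple p s⟩

end Pool.Agent.Results.MP_d0239a_nt.ModularCriterion
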