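import Pool.Agent.J6H14.DMu.Rel7

/-!
# A finite-level criterion for the relative part of an arbitrary extension of degree prime to `p`

`E ≤ F` are number fields with `p ∤ [F : E]`; no Galois hypothesis. `dCl p s L` is the order of
`Cl(L) / p` (for `s = true`: of the class group modulo the classes of the primes above `p`).
-/

set_option autoImplicit false

namespace Pool.Agent.Results.MP_d0239a_nt.RelativeCriterion

open Pool.Agent.J6H14.DMu

theorem result (p : ℕ) [Fact p.Prime] (s : Bool) (E F : Fl) [FiniteDimensional ℚ F] (hEF : E ≤ F)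
    (hp : ¬ p ∣ rdeg E F) :
    (∀ δ, Adm p s E F δ →
      (∀ (m m' : ℕ) (R R' : Fl), Layer p m R → Layer p m' R' → R ≤ R' → Small p s E F δ R →
        dCl p s (F ⊔ R') * dCl p s (E ⊔ R) ≤ dCl p s (F ⊔ R) * dCl p s (E ⊔ R')) ∧
      (MuVanishes p s F ↔
        MuVanishes p s E ∧ ∃ (m : ℕ) (R : Fl), Layer p m R ∧ Small p s E F δ R)) ∧
    (∀ (m₁ : ℕ) (R₁ : Fl), Layer p m₁ R₁ → deg F ≤ deg R₁ → Adm p s E F (rdeg F (F ⊔ R₁))) ∧
    (∀ L : Fl, FiniteDimensional ℚ L → RkLe p s L (dCl p s L)) :=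
  ⟨fun _ hδ => ⟨fun _ _ _ _ hR hR' hRR hsm => rel_fields hEF hp hδ hR hR' hRR hsm,
    mu_rel hEF hp hδ⟩,
    fun m₁ R₁ hR₁ hdeg => Or.inr ⟨m₁, R₁, hR₁, totAbove_of_deg s hR₁ hdeg, rfl⟩,
    fun L _ => dCl_spec s L⟩

end Pool.Agent.Results.MP_d0239a_nt.RelativeCriterion
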