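import Pool.Agent.J6H71.Mu.Gen
import Pool.Agent.J6H94.MuS.Iner
import Pool.Agent.J6H40.MuS.OneP

/-!
# Iwasawa's conjecture `μ = 0`: a criterion at finite level which allows split primes

Let `K / k` be a Galois extension of number fields (`k` is arbitrary) of degree prime to `p`, and `F` a
field between `k` and `K`. For a number field `L` let `d(L)` be the order of `Cl(L) / p` (`s = false`)
or of the quotient by the classes of the primes above `p` (`s = true`, the case of the problem): this
is the largest degree of an elementary abelian `p`-extension of `L` which is unramified at all places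
and, if `s = true`, in which the primes above `p` split completely. `RkLe p s L C` says `d(L) ≤ C`,
and `MuVanishes p s L` says that the numbers `d(L R)` are bounded, where `R` runs through the layers of
the cyclotomic `ℤ_p`-extension of `ℚ`, so that the `L R` are the layers of the one of `L`.

Let `T` be a nonempty finite set of fields between `k` and `K`. A simple `𝔽_p[Gal(K/k)]`-module `S` is
*relevant* if it has no nonzero vectors fixed by `Gal(K/E)` for `E ∈ T`, but nonzero vectors fixed
by `Gal(K/F)`. It is *good* if there are fields `P_i`, `N_j` between `k` and `K` with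
`∏ |V^{N_j}| ≤ ∏ |V^{P_i}|` for all simple modules `V`, and layers for which one of the following
inequalities holds, where `w = ∏ |S^{P_i}| / ∏ |S^{N_j}|`.

* `∏ d(P_i R) / ∏ d(N_j R) < w ^ ([K R : K] - t)`, where `t` is such that for every layer `R'` the primes
  above `p` of `k R'` whose decomposition groups `D` in `Gal(K/k)` have nonzero fixed vectors in `S` are
  represented by primes `B_1, …, B_a` with `∏ |S^{D(B_i)}| < |End S| ^ (t + 1)`;
* `∏ d(P_i R) / ∏ d(N_j R) < ∏ d(P_i R₁) / ∏ d(N_j R₁) * w ^ ([K R : K] - [K R₁ : K])`, where `R₁ ≤ R` and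
  `[k : ℚ] < p [R₁ : ℚ]`.

* If `μ(E) = 0` for all `E ∈ T`, then `μ(F) = 0` if and only if each relevant module is good.
* If each relevant module is good with layers contained in `R₀`, then
  `d(F R') ≤ d(F R₀) p ^ [K : ℚ] ∏ d(E R') ^ [E : k]` for all layers `R'` which contain `R₀`.

Proof. Let `V` be the group of a maximal extension of `K R'` as above which is Galois over `k`, let `U` be the
submodule generated by the vectors fixed by the groups of the `E R'`, and `γ` a generator of the
group of `K R' / K`. The homomorphism to `V / U (γ - 1) ^ q V`, `q = [K R : K]`, extends to the group of `K R`,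
and the images of the local groups at `p` generate a submodule in which `S` occurs at most `t` times,
since it is generated by few vectors fixed by decomposition groups. In the second case the primes
above `p` are totally ramified above `R₁`, and the differences of the inertia groups are contained in the
part killed by the norm from `R` to `R₁`. If `S` occurs in
`U (γ - 1) ^ n V / U (γ - 1) ^ (n + 1) V` for some `n ≥ q - 1`, then it occurs in the first `q`
quotients, and the inequality fails.
-/

set_option autoImplicit false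

namespace Pool.Agent.Results.MP_d0239a_nt.SplitPrimes

open Pool.Agent.Q60.MU Pool.Agent.J6H14.DMu Pool.Agent.J6H71.Mu

theorem result (p : ℕ) [Fact p.Prime] (s : Bool) (k F K : Fl) (hfd : FiniteDimensional ℚ K)
    (hK : IsGaloisOver k K) (hpK : ¬ p ∣ rdeg k K) (hkF : k ≤ F) (hFK : F ≤ K)
    (T : Finset Fl) (hne : T.Nonempty) (hT : ∀ E ∈ T, k ≤ E ∧ E ≤ K) :
    ((∀ E ∈ T, MuVanishes p s E) →
      (MuVanishes p s F ↔ ∀ (S : Type) [AddCommGroup S] [Module (ZMod p) S]
        [Module.Finite (ZMod p) S] (τ : Rp p k S), Relevant F K T τ →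
        ∃ m₀ R₀, Layer p m₀ R₀ ∧ Good s K R₀ τ)) ∧
    ∀ (m₀ m' : ℕ) (R₀ R' : Fl), Layer p m₀ R₀ → Layer p m' R' → R₀ ≤ R' →
      (∀ (S : Type) [AddCommGroup S] [Module (ZMod p) S] [Module.Finite (ZMod p) S]
        (τ : Rp p k S), Relevant F K T τ → Good s K R₀ τ) →
      ∀ (C₀ : ℕ) (c : Fl → ℕ), RkLe p s (F ⊔ R₀) C₀ → (∀ E ∈ T, RkLe p s (E ⊔ R') (c E)) →
        RkLe p s (F ⊔ R') (C₀ * p ^ deg K * ∏ E ∈ T, c E ^ rdeg k E) := by
  have hfk : FiniteDimensional ℚ k := Pool.Agent.W5h33.DF.fd_of_le hK.1
  refine ⟨fun hE => ⟨fun hF S _ _ _ τ hτ => nec_gen hK hkF hFK hF τ hτ.2.2, fun hcr => ?_⟩, ?_⟩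
  · exact suff_gen Pool.Agent.J6H40.MuS.onePrime Pool.Agent.J6H94.MuS.inertia_surj' hK hpK hkF hFK
      T hne hT hE hcr
  · intro m₀ m' R₀ R' hR₀ hR' hRR hcr C₀ c hC₀ hc
    exact bound_gen Pool.Agent.J6H40.MuS.onePrime Pool.Agent.J6H94.MuS.inertia_surj' hK hpK hkF hFK
      T hne hT hR₀ hR' hRR hcr hC₀ c hc

end Pool.Agent.Results.MP_d0239a_nt.SplitPrimes
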